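import Pool.Agent.H95.ILV.Targets

/-!
# MP_de9001_an, invariant levels: elementary consequences of the requirements (row GEL)
-/

set_option autoImplicit false

open MeasureTheory AddCircle Filter Topology Pool.Agent.H87.Synth Pool.Agent.H23.Synth
  Pool.Agent.H95.ILV

namespace Pool.Agent.H43.ILV

theorem pf_GEL : T_GEL := by
  intro c T M u κ h
  have ha : ∀ i j j', j ≤ j' → j' < M i → κ i j ≤ κ i j' := by
    intro i j j' hjj
    induction j', hjj using Nat.le_induction with
    | base => intro _; exact le_rfl
    | succ n _ ih => intro hn; exact (ih (by omega)).trans (h.mono i n hn).le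
  have hb : ∀ i, 2 * κ i 0 ≤ Bd M κ (i + 1) := by
    intro i
    have h1 := h.m1 i
    have h2 := ha i 0 (M i - 1) (Nat.zero_le _) (by omega)
    change 2 * κ i 0 ≤ 2 * κ i (M i - 1)
    omega
  have hstep : ∀ i, Bd M κ i + 5 * u i ≤ Bd M κ (i + 1) := fun i => (h.step i).trans (hb i)
  have hmono : Monotone (Bd M κ) := monotone_nat_of_le_succ fun i => by
    have := hstep i
    omega
  have hc : ∀ i i', i < i' → Bd M κ i + 5 * u i ≤ Bd M κ i' := fun i i' hii =>
    (hstep i).trans (hmono hii)
  refine ⟨ha, hb, hc, ?_, ?_, ?_⟩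
  · intro i i' j hii hj
    have h1 := ha i' j (M i' - 1) (by omega) (by omega)
    have h2 : 2 * κ i' j ≤ Bd M κ (i' + 1) := by
      change 2 * κ i' j ≤ 2 * κ i' (M i' - 1)
      omega
    exact h2.trans (hmono hii)
  · intro i i' j hii hj
    have h1 := ha i' 0 j (Nat.zero_le _) hj
    rcases hii.lt_or_eq with h2 | h2
    · have h3 := hc i i' h2
      have h4 := h.step i'
      omega
    · subst h2
      have h4 := h.step i
      omega
  · intro K
    have h10 : ∀ i, 10 * i ≤ Bd M κ i := by
      intro i
      induction i with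
      | zero => exact Nat.zero_le _
      | succ i ih =>
        have h1 := hstep i
        have h2 := h.u2 i
        omega
    refine ⟨2 * κ K 0, ⟨K, 0, h.m1 K, rfl⟩, ?_⟩
    have h1 := h10 K
    have h2 := h.step K
    omega

end Pool.Agent.H43.ILV
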