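import Pool.Agent.H95.ILV.Targets

/-!
# MP_de9001_an, invariant levels: a function far from the class-constant polynomials (row HBN)
-/

set_option autoImplicit false

open MeasureTheory AddCircle Filter Topology Pool.Agent.H87.Synth Pool.Agent.H23.Synth
  Pool.Agent.H95.ILV

namespace Pool.Agent.H43.ILV

/-- the class-constant coefficient functions -/
def ccs (r : Setoid ℤ) : Submodule ℂ (ℤ →₀ ℂ) where
  carrier := {c | ∀ m n, r m n → c m = c n}
  add_mem' := by
    intro c d hc hd m n h
    rw [Finsupp.add_apply, Finsupp.add_apply, hc m n h, hd m n h]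
  zero_mem' := fun _ _ _ => rfl
  smul_mem' := by
    intro a c hc m n h
    rw [Finsupp.smul_apply, Finsupp.smul_apply, hc m n h]

theorem eS_poly (S : Finset ℤ) : poly (∑ k ∈ S, Finsupp.single k (1 : ℂ)) = eS S := by
  unfold poly eS
  rw [map_sum]
  refine Finset.sum_congr rfl fun k _ => ?_
  rw [Finsupp.linearCombination_single, one_smul]

theorem ind_apply (S : Finset ℤ) (n : ℤ) [Decidable (n ∈ S)] :
    (∑ k ∈ S, Finsupp.single k (1 : ℂ)) n = if n ∈ S then 1 else 0 := by
  classical
  rw [Finsupp.finsetSum_apply]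
  simp only [Finsupp.single_apply]
  rw [Finset.sum_ite_eq' S n (fun _ => (1 : ℂ))]
  congr

theorem pf_HBN : T_HBN := by
  classical
  intro r f δ hfin hf hδ hdist
  set W : Submodule ℂ L1 := (ccs r).map (Finsupp.linearCombination ℂ ex) with hW
  have hfW : f ∉ W.topologicalClosure := by
    intro h
    rw [← SetLike.mem_coe, Submodule.topologicalClosure_coe, Metric.mem_closure_iff] at h
    obtain ⟨w, hw, hfw⟩ := h δ hδ
    obtain ⟨c, hc, rfl⟩ := hw
    have h1 := hdist c hc
    rw [dist_eq_norm] at hfw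
    exact absurd hfw (not_lt.2 h1)
  have : IsClosed (W.topologicalClosure : Set L1) := W.isClosed_topologicalClosure
  have hne : (Submodule.Quotient.mk f : L1 ⧸ W.topologicalClosure) ≠ 0 := by
    rw [Ne, Submodule.Quotient.mk_eq_zero]
    exact hfW
  obtain ⟨g, -, hg⟩ := exists_dual_vector ℂ (Submodule.Quotient.mk f :
    L1 ⧸ W.topologicalClosure) (norm_ne_zero_iff.2 hne)
  refine not_synthesis r hfin (g.comp (W.topologicalClosure.mkQL)) ?_ f hf ?_
  · intro S n₀ hS
    have h1 : eS S ∈ W.topologicalClosure := by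
      apply W.le_topologicalClosure
      refine ⟨∑ k ∈ S, Finsupp.single k (1 : ℂ), ?_, eS_poly S⟩
      intro m n hmn
      rw [ind_apply, ind_apply]
      have h2 : m ∈ S ↔ n ∈ S := by
        rw [hS, hS]
        exact ⟨fun h => r.trans h hmn, fun h => r.trans h (r.symm hmn)⟩
      simp only [h2]
    have h3 : (W.topologicalClosure.mkQL) (eS S) = 0 :=
      (Submodule.Quotient.mk_eq_zero _).2 h1
    rw [ContinuousLinearMap.comp_apply, h3, map_zero]
  · have h1 : (g.comp (W.topologicalClosure.mkQL)) f =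
        g (Submodule.Quotient.mk f : L1 ⧸ W.topologicalClosure) := rfl
    rw [h1, hg]
    intro h2
    have h3 : ‖(Submodule.Quotient.mk f : L1 ⧸ W.topologicalClosure)‖ = 0 :=
      RCLike.ofReal_eq_zero.1 h2
    exact hne (norm_eq_zero.1 h3)

end Pool.Agent.H43.ILV
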