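import Pool.Agent.H95.ILV.Targets

/-!
# MP_de9001_an, invariant levels: the units of the explicit levels (row KF)
-/

set_option autoImplicit false

open MeasureTheory AddCircle Filter Topology Pool.Agent.H87.Synth Pool.Agent.H23.Synth
  Pool.Agent.H95.ILV

namespace Pool.Agent.H43.ILV

theorem kk_step (h2 : T_KB) (i j : ℕ) : kk i j + 2 ^ Tt i * Hh i ≤ kk i (j + 1) := by
  have e1 := (h2 i j).1
  have e2 : bb i j ≤ bb i (j + 1) := by
    unfold bb
    gcongr <;> omega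
  have e3 : 1 ≤ 2 ^ (j / mm i) := Nat.one_le_two_pow
  unfold kk
  rw [e1]
  calc 2 ^ Tt i * (Hh i * aa i j + bb i j) + 2 ^ Tt i * Hh i
      = 2 ^ Tt i * (Hh i * (aa i j + 1) + bb i j) := by ring
    _ ≤ 2 ^ Tt i * (Hh i * (aa i j + 2 ^ (j / mm i)) + bb i (j + 1)) := by gcongr

theorem Hh_ge (i : ℕ) : 3 ≤ Hh i := by
  unfold Hh
  calc 3 ≤ 2 ^ 2 := by norm_num
    _ ≤ 2 ^ (6 * i + 110) := Nat.pow_le_pow_right (by norm_num) (by omega)

theorem kk_zero (h2 : T_KB) (i : ℕ) : 3 * 2 ^ Tt i ≤ kk i 0 := by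
  have e1 := (h2 i 0).2.1
  have e2 : 1 ≤ mm i := by
    unfold mm
    exact Nat.le_add_left 1 _
  have e3 : 1 ≤ 2 ^ (0 / mm i) := Nat.one_le_two_pow
  have e4 : 1 ≤ aa i 0 := (Nat.mul_le_mul e3 e2).trans e1
  have e5 := Hh_ge i
  unfold kk
  calc 3 * 2 ^ Tt i = 2 ^ Tt i * (3 * 1 + 0) := by ring
    _ ≤ 2 ^ Tt i * (Hh i * aa i 0 + bb i 0) := by
        gcongr
        exact Nat.zero_le _

theorem pf_KF (h1 : T_KA) (h2 : T_KB) (h3 : T_KC) (h4 : T_KE) : T_KF := by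
  -- the data of a block
  have key : ∀ i, Bd MM kk (i + 1) + 5 * uu (i + 1) ≤ 2 * kk (i + 1) 0 ∧
      2 ^ 2 ^ (i + 1 + 7) ≤ uu (i + 1) ∧
      Bd MM kk (i + 1) + 4 * uu (i + 1) ≤ 2 ^ (i + 1 + 40) * uu (i + 1) := by
    intro i
    obtain ⟨j3, -, jN, -, hlt⟩ := h4 i
    obtain ⟨e, he⟩ : ∃ e, JJ i = e + 2 := ⟨JJ i - 2, by omega⟩
    have hBd : Bd MM kk (i + 1) = 2 * kk i e := by
      change 2 * kk i (MM i - 1) = 2 * kk i e
      unfold MM
      rw [he]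
      congr 2
    have hs := kk_step h2 i e
    have hl := hlt (e + 1) (by omega)
    have hC := ((h3 i e).2 (by omega)).1
    have hmm := (h1 i).2.1
    have hT : 2 ^ (i + 1 + 7) = Tt i := by
      unfold Tt
      congr 1
    have hU : uu (i + 1) = (2 * kk (i + 1) 0 - 2 * kk i e) / 5 := by
      unfold uu
      rw [hBd]
    rw [hT, hBd, hU]
    have hH := Hh_ge i
    have hZ : 3 * 2 ^ Tt i ≤ 2 ^ Tt i * Hh i := by
      rw [mul_comm]
      gcongr
    have hW : 1 ≤ 2 ^ Tt i := Nat.one_le_two_pow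
    generalize kk (i + 1) 0 = C at *
    generalize kk i e = A at *
    generalize kk i (e + 1) = B at *
    generalize 2 ^ Tt i * Hh i = Z at *
    generalize 2 ^ Tt i = W at *
    have hU1 : W ≤ (2 * C - 2 * A) / 5 := by omega
    refine ⟨by omega, hU1, ?_⟩
    obtain ⟨U, hUd⟩ : ∃ U, U = (2 * C - 2 * A) / 5 := ⟨_, rfl⟩
    rw [← hUd] at hU1 ⊢
    have hD : 2 * (B - A) ≤ 9 * U := by omega
    have hp : 1 ≤ 2 ^ (i + 24) := Nat.one_le_two_pow
    have e1 : 2 * A ≤ 2 ^ (i + 29) * U := by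
      calc 2 * A ≤ 2 * (2 * mm i * (B - A)) := by gcongr
        _ = 2 * mm i * (2 * (B - A)) := by ring
        _ ≤ 2 * 2 ^ (i + 24) * (9 * U) := by gcongr
        _ = 18 * 2 ^ (i + 24) * U := by ring
        _ ≤ 2 ^ 5 * 2 ^ (i + 24) * U := by
            gcongr
            norm_num
        _ = 2 ^ (i + 29) * U := by
            rw [← pow_add, show 5 + (i + 24) = i + 29 by ring]
    have e2 : 2 ^ (i + 29) + 4 ≤ 2 ^ (i + 1 + 40) := by
      have e3 : 2 ^ (i + 1 + 40) = 2 ^ (i + 29) * 2 ^ 12 := by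
        rw [← pow_add]
      have e4 : 1 ≤ 2 ^ (i + 29) := Nat.one_le_two_pow
      rw [e3]
      omega
    calc 2 * A + 4 * U ≤ 2 ^ (i + 29) * U + 4 * U := by gcongr
      _ = (2 ^ (i + 29) + 4) * U := by ring
      _ ≤ 2 ^ (i + 1 + 40) * U := by gcongr
  have key0 : Bd MM kk 0 + 5 * uu 0 ≤ 2 * kk 0 0 ∧ 2 ^ 2 ^ (0 + 7) ≤ uu 0 ∧
      Bd MM kk 0 + 4 * uu 0 ≤ 2 ^ (0 + 40) * uu 0 := by
    have hBd : Bd MM kk 0 = 0 := rfl
    have hU : uu 0 = 2 * kk 0 0 / 5 := by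
      unfold uu
      rw [hBd, Nat.sub_zero]
    have hk := kk_zero h2 0
    have hT : 2 ^ 2 ^ (0 + 7) ≤ 2 ^ Tt 0 := by
      apply Nat.pow_le_pow_right (by norm_num)
      unfold Tt
      exact Nat.pow_le_pow_right (by norm_num) (by norm_num)
    rw [hBd, hU]
    generalize kk 0 0 = C at *
    generalize 2 ^ Tt 0 = W at *
    generalize 2 ^ 2 ^ (0 + 7) = W' at *
    refine ⟨by omega, by omega, ?_⟩
    have h40 : 4 ≤ 2 ^ (0 + 40) := by norm_num
    rw [zero_add (4 * (2 * C / 5))]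
    gcongr
  refine ⟨fun i => ?_, fun i => ?_, fun i => ?_⟩
  · cases i with
    | zero => exact key0.1
    | succ i => exact (key i).1
  · cases i with
    | zero => exact key0.2.1
    | succ i => exact (key i).2.1
  · cases i with
    | zero => exact key0.2.2
    | succ i => exact (key i).2.2

end Pool.Agent.H43.ILV
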